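import Pool.Agent.Work.MP_b29d7f_ns.Interface3

/-! Block FACT: the sum of the von Mangoldt function over the divisors of `x` is `log N(x)`. -/

set_option autoImplicit false

open Finset

namespace Pool.NS

open Pool.Agent.Work.MP_b29d7f_nt.Ded

namespace FACT_

variable {R : Type} [CommRing R] [IsDedekindDomain R] [Ring.HasFiniteQuotients R] [Infinite R]

omit [Ring.HasFiniteQuotients R] [Infinite R] in
lemma prime_unique {p q : Ideal R} (hp : p.IsPrime) (hp0 : p ≠ ⊥) (hq : q.IsPrime) (hq0 : q ≠ ⊥)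
    {i j : ℕ} (hi : 1 ≤ i) (h : p ^ i = q ^ j) : p = q := by
  have h1 : p ∣ q ^ j := by rw [← h]; exact dvd_pow_self p (by omega)
  have hP := Ideal.prime_of_isPrime hp0 hp
  have h2 : p ∣ q := hP.dvd_of_dvd_pow h1
  have h3 : q ≤ p := Ideal.dvd_iff_le.1 h2
  exact ((hq.isMaximal hq0).eq_of_le hp.ne_top h3).symm

omit [Ring.HasFiniteQuotients R] [Infinite R] in
lemma Lam_pow {p : Ideal R} (hp : p.IsPrime) (hp0 : p ≠ ⊥) {i : ℕ} (hi : 1 ≤ i) :
    Lam (p ^ i) = Real.log (Nm p) := by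
  have h : ∃ q : Ideal R, q.IsPrime ∧ q ≠ ⊥ ∧ ∃ j : ℕ, 1 ≤ j ∧ p ^ i = q ^ j :=
    ⟨p, hp, hp0, i, hi, rfl⟩
  unfold Lam
  rw [dif_pos h]
  obtain ⟨hq, hq0, j, hj, hpq⟩ := h.choose_spec
  rw [← prime_unique hp hp0 hq hq0 hi hpq]

omit [IsDedekindDomain R] [Ring.HasFiniteQuotients R] [Infinite R] in
lemma Lam_ne {I : Ideal R} (h : Lam I ≠ 0) :
    ∃ p : Ideal R, p.IsPrime ∧ p ≠ ⊥ ∧ ∃ i : ℕ, 1 ≤ i ∧ I = p ^ i := by
  by_contra hn
  apply h
  unfold Lam
  rw [dif_neg hn]

omit [IsDedekindDomain R] [Ring.HasFiniteQuotients R] [Infinite R] in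
lemma Lam_nonneg (I : Ideal R) : 0 ≤ Lam I := by
  unfold Lam
  split_ifs
  · exact Real.log_natCast_nonneg _
  · exact le_rfl

omit [Infinite R] in
lemma Nm_le_of_dvd {I J : Ideal R} (hJ : J ≠ ⊥) (h : I ∣ J) [Infinite R] : Nm I ≤ Nm J := by
  obtain ⟨I', rfl⟩ := h
  rw [Nm_mul]
  have hI' : I' ≠ ⊥ := by
    rintro rfl
    exact hJ (Ideal.mul_bot I)
  exact Nat.le_mul_of_pos_right _ (Nm_pos hI')

open scoped Classical in
lemma main (X : ℕ) (J : Ideal R) (hJ : J ≠ ⊥) (hX : Nm J ≤ X) :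
    Real.log (Nm J) = ∑ I ∈ (ids R X).filter (fun I => I ∣ J), Lam I := by
  revert hJ hX
  refine UniqueFactorizationMonoid.induction_on_prime J ?_ ?_ ?_
  · intro h; exact absurd rfl h
  · intro I hI _ _
    rw [Ideal.isUnit_iff] at hI
    subst hI
    rw [Nm_top, Nat.cast_one, Real.log_one]
    symm
    apply Finset.sum_eq_zero
    intro I hI
    rw [Finset.mem_filter] at hI
    by_contra h
    obtain ⟨p, hp, hp0, i, hi, rfl⟩ := Lam_ne h
    have h1 : p ∣ ⊤ := dvd_trans (dvd_pow_self p (by omega)) hI.2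
    have h2 : (⊤ : Ideal R) ≤ p := Ideal.dvd_iff_le.1 h1
    exact hp.ne_top (top_le_iff.1 h2)
  · intro J' p hJ' hp ih hJ hX
    have hJ0 : J' ≠ ⊥ := hJ'
    have hpp : p.IsPrime := Ideal.isPrime_of_prime hp
    have hp0 : p ≠ ⊥ := hp.ne_zero
    have hX' : Nm J' ≤ X := (Nm_le_of_dvd hJ (Dvd.intro_left p rfl)).trans hX
    rw [Nm_mul, Nat.cast_mul, Real.log_mul (by exact_mod_cast (Nm_pos hp0).ne')
      (by exact_mod_cast (Nm_pos hJ0).ne'), ih hJ0 hX']
    have hfin : FiniteMultiplicity p J' := FiniteMultiplicity.of_prime_left hp hJ'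
    set v := multiplicity p J' with hv
    have hv1 : p ^ v ∣ J' := pow_multiplicity_dvd p J'
    have hv2 : ¬ p ^ (v + 1) ∣ J' := hfin.not_pow_dvd_of_multiplicity_lt (Nat.lt_succ_self _)
    have hv3 : p ^ (v + 1) ∣ p * J' := by
      rw [pow_succ']; exact mul_dvd_mul_left p hv1
    have hmem : p ^ (v + 1) ∈ ids R X := by
      rw [mem_ids]
      refine ⟨pow_ne_zero _ hp0, (Nm_le_of_dvd hJ hv3).trans hX⟩
    have hsub : insert (p ^ (v + 1)) ((ids R X).filter fun I => I ∣ J')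
        ⊆ (ids R X).filter fun I => I ∣ p * J' := by
      intro I hI
      rw [Finset.mem_insert] at hI
      rw [Finset.mem_filter]
      rcases hI with rfl | hI
      · exact ⟨hmem, hv3⟩
      · rw [Finset.mem_filter] at hI
        exact ⟨hI.1, hI.2.mul_left p⟩
    rw [← Finset.sum_subset hsub, Finset.sum_insert, Lam_pow hpp hp0 (by omega)]
    · rw [Finset.mem_filter]
      exact fun h => hv2 h.2
    · intro I hI hI2
      by_contra hL
      obtain ⟨q, hq, hq0, i, hi, rfl⟩ := Lam_ne hL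
      rw [Finset.mem_filter] at hI
      apply hI2
      rw [Finset.mem_insert, Finset.mem_filter]
      by_cases hqp : q = p
      · subst hqp
        obtain ⟨i, rfl⟩ : ∃ i', i = i' + 1 := ⟨i - 1, by omega⟩
        have h1 : q ^ i ∣ J' := by
          have h2 := hI.2
          rw [pow_succ'] at h2
          exact (mul_dvd_mul_iff_left hp0).1 h2
        have h3 : i ≤ v := hfin.le_multiplicity_of_pow_dvd h1
        rcases Nat.lt_or_ge i v with h4 | h4
        · right
          exact ⟨hI.1, dvd_trans (pow_dvd_pow q h4) hv1⟩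
        · left
          have : i = v := le_antisymm h3 h4
          rw [this]
      · right
        refine ⟨hI.1, ?_⟩
        have hcop : IsCoprime (q ^ i) p := by
          apply IsCoprime.pow_left
          rw [Ideal.isCoprime_iff_sup_eq]
          have hqm := hq.isMaximal hq0
          have hpm := hpp.isMaximal hp0
          exact Ideal.IsMaximal.coprime_of_ne hqm hpm hqp
        exact hcop.dvd_of_dvd_mul_left hI.2

end FACT_

open FACT_ in
theorem stmt_FACT : Stmt_FACT := by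
  classical
  intro R _ _ _ _
  refine ⟨Lam_nonneg, fun p hp hp0 i hi => Lam_pow hp hp0 hi, fun I hI => Lam_ne hI, ?_⟩
  intro x X hx hX
  have h0 : Ideal.span {x} ≠ ⊥ := by rwa [Ne, Ideal.span_singleton_eq_bot]
  have h := main X (Ideal.span {x}) h0 hX
  rw [nrm_eq, h]
  apply Finset.sum_congr _ fun _ _ => rfl
  ext I
  rw [Finset.mem_filter, Finset.mem_filter, Ideal.dvd_span_singleton]

end Pool.NS
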