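import Pool.Agent.Work.MP_b29d7f_ns.Interface3

/-! Block INST: the rings `𝓞 K [1/g]`. -/

set_option autoImplicit false

open Finset NumberField IsDedekindDomain

namespace Pool.NS

namespace INST_

/-- a localization of a ring with finite quotients has finite quotients -/
lemma hasFiniteQuotients {A R : Type*} [CommRing A] [CommRing R] [Algebra A R]
    [Ring.HasFiniteQuotients A] (M : Submonoid A) [IsLocalization M R] :
    Ring.HasFiniteQuotients R := by
  refine ⟨fun {I} hI => ?_⟩
  set J := I.comap (algebraMap A R) with hJ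
  have hJ0 : J ≠ ⊥ := by
    intro h
    apply hI
    have h1 : Ideal.map (algebraMap A R) J = I := IsLocalization.map_under M R I
    rw [← h1, h, Ideal.map_bot]
  have hfin : Finite (A ⧸ J) := Ring.HasFiniteQuotients.finiteQuotient hJ0
  have hinj : Function.Injective (Ideal.quotientMap I (algebraMap A R) (le_refl J)) :=
    Ideal.quotientMap_injective
  have hu : ∀ s : M, IsUnit (Ideal.Quotient.mk J (s : A)) := by
    intro s
    rw [isUnit_iff_mem_nonZeroDivisors_of_finite, mem_nonZeroDivisors_iff_right]
    intro x hx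
    apply hinj
    rw [map_zero]
    have h1 : IsUnit (Ideal.Quotient.mk I (algebraMap A R s)) :=
      (IsLocalization.map_units R s).map _
    have h2 := congrArg (Ideal.quotientMap I (algebraMap A R) (le_refl J)) hx
    rw [map_mul, Ideal.quotientMap_mk, map_zero] at h2
    exact (h1.mul_left_eq_zero).1 h2
  apply Finite.of_surjective (Ideal.quotientMap I (algebraMap A R) (le_refl J))
  intro y
  obtain ⟨r, rfl⟩ := Ideal.Quotient.mk_surjective y
  obtain ⟨a, s, rfl⟩ := IsLocalization.exists_mk'_eq M r
  obtain ⟨b, hb⟩ := Ideal.Quotient.mk_surjective ((hu s).unit⁻¹ : (A ⧸ J)ˣ).val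
  refine ⟨Ideal.Quotient.mk J (a * b), ?_⟩
  rw [Ideal.quotientMap_mk]
  have h1 : IsUnit (Ideal.Quotient.mk I (algebraMap A R s)) :=
    (IsLocalization.map_units R s).map _
  rw [← h1.mul_left_inj, ← map_mul, ← map_mul, ← map_mul, IsLocalization.mk'_spec]
  have h2 : Ideal.Quotient.mk J (a * b * s) = Ideal.Quotient.mk J a := by
    rw [map_mul, map_mul, hb, mul_assoc]
    have h3 : (((hu s).unit⁻¹ : (A ⧸ J)ˣ) : A ⧸ J) * Ideal.Quotient.mk J (s : A) = 1 := by
      exact (hu s).val_inv_mul
    rw [h3, mul_one]
  have h4 := congrArg (Ideal.quotientMap I (algebraMap A R) (le_refl J)) h2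
  rwa [Ideal.quotientMap_mk, Ideal.quotientMap_mk] at h4

end INST_

open INST_ in
theorem stmt_INST : Stmt_INST := by
  intro K _ _ g R _ _ _ hS
  have hg := hS.ne
  have htower := hS.tower
  have haway := hS.away
  have hM : Submonoid.powers g ≤ nonZeroDivisors (𝓞 K) := powers_le_nonZeroDivisors_of_noZeroDivisors hg
  have hloc : IsLocalization (Submonoid.powers g) R := haway
  have hdom : IsDomain R := IsLocalization.isDomain_of_le_nonZeroDivisors R hM
  have hinf : Infinite (𝓞 K) := inferInstance
  refine ⟨hdom, IsFractionRing.isFractionRing_of_isDomain_of_isLocalization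
    (Submonoid.powers g) R K, IsLocalization.isDedekindDomain (𝓞 K) hM R,
    hasFiniteQuotients (Submonoid.powers g), ?_⟩
  exact Infinite.of_injective _ (IsLocalization.injective R hM)

end Pool.NS
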